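import Pool.Agent.W_9986fc_h24.NB.Stmt
import Pool.Agent.W_9986fc_h24.NilNice

/-!
# Bundles of nilmanifolds: conversions between the definitions
-/

set_option autoImplicit false
set_option maxSynthPendingDepth 3

open scoped ContDiff
open MeasureTheory

namespace Pool.Agent.W_9986fc_h24.NB

section

variable {E : Type} [NormedAddCommGroup E] [NormedSpace ℝ E] {Γ : Type} [Group Γ] [MulAction Γ E]
  {n : ℕ}

theorem Closed.isCover (h : Closed E Γ) : IsCover E Γ := ⟨h.smooth, h.proper, h.cocompact⟩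

theorem Closed.nice (h : Closed E Γ) (hO : Oriented E Γ) : Nice.ClosedOriented E Γ :=
  ⟨h.smooth, h.proper, h.cocompact, hO⟩

theorem PartitionOfUnity.nice {χ : E → ℝ} (h : PartitionOfUnity Γ χ) : Nice.PartitionOfUnity Γ χ :=
  ⟨h.smooth, h.compact, h.sum⟩

theorem PartitionOfUnity.of_nice {χ : E → ℝ} (h : Nice.PartitionOfUnity Γ χ) :
    PartitionOfUnity Γ χ := ⟨h.smooth, h.compact, h.sum⟩

/-- A 1-form as a family of linear maps. -/
def OneForm.lin {η : E → E → ℝ} (h : OneForm Γ η) (x : E) : E →ₗ[ℝ] ℝ := (h.linear x).mk'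

theorem OneForm.nice {η : E → E → ℝ} (h : OneForm Γ η) : Nice.OneForm Γ h.lin :=
  ⟨h.smooth, h.invariant⟩

theorem OneForm.of_nice {η : E → E →ₗ[ℝ] ℝ} (h : Nice.OneForm Γ η) :
    OneForm Γ (fun x u => η x u) :=
  ⟨fun x => ⟨(η x).map_add, (η x).map_smul⟩, h.smooth, h.invariant⟩

/-- A 2-form as a family of bilinear maps. -/
def ClosedTwoForm.lin {α : E → E → E → ℝ} (h : ClosedTwoForm Γ α) (x : E) : E →ₗ[ℝ] E →ₗ[ℝ] ℝ :=
  LinearMap.mk₂ ℝ (α x)
    (fun u u' v => by
      rw [h.antisymm, (h.linear x v).map_add, h.antisymm x v u, h.antisymm x v u']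
      ring)
    (fun c u v => by
      rw [h.antisymm, (h.linear x v).map_smul, h.antisymm x v u, smul_eq_mul, smul_eq_mul]
      ring)
    (fun u v v' => (h.linear x u).map_add v v')
    (fun c u v => (h.linear x u).map_smul c v)

theorem ClosedTwoForm.nice {α : E → E → E → ℝ} (h : ClosedTwoForm Γ α) :
    Nice.ClosedTwoForm Γ h.lin where
  smooth := h.smooth
  alt x u := by
    have h1 := h.antisymm x u u
    show α x u u = 0
    linarith
  invariant := h.invariant
  closed := h.closed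

theorem ClosedTwoForm.of_nice {α : E → E →ₗ[ℝ] E →ₗ[ℝ] ℝ} (h : Nice.ClosedTwoForm Γ α) :
    ClosedTwoForm Γ (fun x u v => α x u v) where
  linear x u := ⟨(α x u).map_add, (α x u).map_smul⟩
  antisymm x u v := by
    have h1 := h.alt x (u + v)
    simp only [map_add, LinearMap.add_apply, h.alt x u, h.alt x v] at h1
    show α x u v = - α x v u
    linarith
  smooth := h.smooth
  invariant := h.invariant
  closed := h.closed

theorem classIsSymplectic_of_nice (B : Module.Basis (Fin n × Fin 2) ℝ E) {α : E → E → E → ℝ}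
    (hα : ClosedTwoForm Γ α) (h : Nice.ClassIsSymplectic Γ B hα.lin) :
    ClassIsSymplectic Γ (⇑B) α := by
  obtain ⟨β, hβ, ⟨η, hη, hd⟩, hp⟩ := h
  exact ⟨_, _, ClosedTwoForm.of_nice hβ, OneForm.of_nice hη, hd, hp⟩

theorem nice_of_classIsSymplectic (B : Module.Basis (Fin n × Fin 2) ℝ E)
    {α : E → E →ₗ[ℝ] E →ₗ[ℝ] ℝ} (h : ClassIsSymplectic Γ (⇑B) (fun x u v => α x u v)) :
    Nice.ClassIsSymplectic Γ B α := by
  obtain ⟨β, η, hβ, hη, hd, hp⟩ := h
  exact ⟨hβ.lin, hβ.nice, ⟨hη.lin, hη.nice, hd⟩, hp⟩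

theorem hasSymplecticForm_iff (B : Module.Basis (Fin n × Fin 2) ℝ E) :
    HasSymplecticForm Γ (⇑B) ↔ Nice.HasSymplecticForm Γ B := by
  constructor
  · rintro ⟨β, hβ, hp⟩
    exact ⟨hβ.lin, hβ.nice, hp⟩
  · rintro ⟨β, hβ, hp⟩
    exact ⟨_, ClosedTwoForm.of_nice hβ, hp⟩

variable [MeasureSpace E]

theorem every_nice (h : EveryPositiveClassIsSymplectic E Γ) :
    Nice.EveryPositiveClassIsSymplectic E Γ := by
  intro n B χ α hχ hα hp
  exact nice_of_classIsSymplectic B (h n B _ ⟨B, rfl⟩ (ClosedTwoForm.of_nice hα)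
    ⟨χ, PartitionOfUnity.of_nice hχ, hp⟩)

theorem csis_nice (h : PositiveClassImpliesSymplectic E Γ) :
    Nice.CohomologicallySymplecticImpliesSymplectic E Γ := by
  rintro n B ⟨χ, α, hχ, hα, hp⟩
  exact (hasSymplecticForm_iff B).1 (h n B _ ⟨B, rfl⟩ (ClosedTwoForm.of_nice hα)
    ⟨χ, PartitionOfUnity.of_nice hχ, hp⟩)

end

section

variable {k b : ℕ}

/-- The nilpotent group as a `NilLaw`. -/
def NilpotentGroup.law (N : NilpotentGroup k) : NilLaw k where
  mul := N.mul
  smooth := N.smooth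
  assoc := N.assoc
  zero_mul := N.zero_mul
  mul_zero := N.mul_zero
  tri := N.triangular
  int := N.lattice

variable {N : NilpotentGroup k} {Γ G : Type} [Group Γ] [Group G]
    [MulAction Γ (R k × R b)] [MulAction G (R b)]

/-- The bundle as a `NilBundle`. -/
def Bundle.nil (X : Bundle N b Γ G) : NilBundle N.law b Γ G where
  π := X.π
  surj := X.surjective
  lam := X.inclusion
  ker := X.kernel
  lam_act := X.translation
  A := X.A
  m := X.m
  smoothA := X.smoothA
  smoothm := X.smoothm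
  hom := X.automorphism
  lat := X.lattice
  lat' := X.lattice'
  act := X.action

theorem fibreMatrix_eq {α : R k × R b → R k × R b → R k × R b → ℝ} (h : ClosedTwoForm Γ α)
    (z : R b) : fibreMatrix N α z = Nice.fibreMatrix N.law h.lin z := rfl

end

end Pool.Agent.W_9986fc_h24.NB
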