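import Pool.Agent.W_9986fc_h24.NB.Perturb

/-!
# Bundles of nilmanifolds: the two theorems for the elementary definitions
-/

set_option autoImplicit false
set_option maxSynthPendingDepth 3

open scoped ContDiff Topology
open Pool.Agent.W_9986fc_h15 MeasureTheory Filter

namespace Pool.Agent.W_9986fc_h24.NB

section

variable {E : Type} [NormedAddCommGroup E] [NormedSpace ℝ E] [FiniteDimensional ℝ E]
  {Γ : Type} [Group Γ] [MulAction Γ E]

/-- The form as a family of continuous bilinear forms. -/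
noncomputable def ClosedTwoForm.clm {α : E → E → E → ℝ} (h : ClosedTwoForm Γ α) (x : E) :
    E →L[ℝ] E →L[ℝ] ℝ := Nice.toC (h.lin x)

theorem ClosedTwoForm.clm_apply {α : E → E → E → ℝ} (h : ClosedTwoForm Γ α) (x u v : E) :
    h.clm x u v = α x u v := rfl

theorem ClosedTwoForm.form2 {α : E → E → E → ℝ} (h : ClosedTwoForm Γ α) : Form2 Γ h.clm :=
  Nice.form2_toC h.nice

theorem ClosedTwoForm.isClosed {α : E → E → E → ℝ} (h : ClosedTwoForm Γ α) :
    W_9986fc_h15.Closed h.clm := Nice.closed_toC h.nice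

theorem ClosedTwoForm.of_clm {β : E → E →L[ℝ] E →L[ℝ] ℝ} (h : Form2 Γ β)
    (hc : W_9986fc_h15.Closed β) : ClosedTwoForm Γ (fun x u v => β x u v) :=
  ClosedTwoForm.of_nice (Nice.closedTwoForm_toLin h hc)

theorem ClosedTwoForm.add_mul {α β : E → E → E → ℝ} (h : ClosedTwoForm Γ α)
    (h' : ClosedTwoForm Γ β) (t : ℝ) : ClosedTwoForm Γ (fun x u v => α x u v + t * β x u v) :=
  ClosedTwoForm.of_clm (h.form2.add (h'.form2.smul t))
    (closed_add h.form2.toIsForm (h'.form2.smul t).toIsForm h.isClosed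
      (closed_smul h'.form2.toIsForm h'.isClosed t))

end

section

variable {k b : ℕ} {N : NilpotentGroup k} {Γ G : Type} [Group Γ] [Group G]
    [MulAction Γ (R k × R b)] [MulAction G (R b)] (X : Bundle N b Γ G)

/-- The rank of the fibre matrix and the kernel of the fibre part of the mean. -/
theorem rank_add {α : R k × R b → R k × R b → R k × R b → ℝ} (h : ClosedTwoForm Γ α) (z : R b) :
    (fibreMatrix N α z).rank + Module.finrank ℝ (kerC (cpart (mean (N.law.hat2 h.clm) z))) = k :=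
  Nice.finrank_kerC N.law h.nice.smooth z

theorem kerC_of_rank {α : R k × R b → R k × R b → R k × R b → ℝ} (h : ClosedTwoForm Γ α) {z : R b}
    (hz : (fibreMatrix N α z).rank = k) : kerC (cpart (mean (N.law.hat2 h.clm) z)) = ⊥ := by
  have h1 := rank_add (N := N) h z
  exact Submodule.finrank_eq_zero.1 (by omega)

/-- Some fibre matrix has rank at least `k - b`. -/
theorem exists_rank (hX : X.ClosedOriented) {n : ℕ} {e : Fin n × Fin 2 → R k × R b}
    {α : R k × R b → R k × R b → R k × R b → ℝ} (hα : X.PositiveClass e α) :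
    ∃ z, k ≤ (fibreMatrix N α z).rank + b := by
  obtain ⟨⟨hM, hO⟩, hB⟩ := hX
  obtain ⟨⟨B, rfl⟩, hα, χ, hχ, hp⟩ := hα
  obtain ⟨z, hz⟩ := X.nil.exists_finrank_le hM.isCover hO hB.isCover B (Nice.part hχ.nice) _
    hα.form2 hα.isClosed hp
  refine ⟨z, ?_⟩
  have h1 := rank_add (N := N) hα z
  have h2 : Module.finrank ℝ (kerC (cpart (mean (N.law.hat2 hα.clm) z))) ≤ b := hz
  omega

/-- The class is symplectic if the fibre part of the mean is nondegenerate everywhere. -/
theorem symplectic_of (hX : X.ClosedOriented) (hs : 4 ≤ b → X.BaseEveryClass) {n : ℕ}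
    {e : Fin n × Fin 2 → R k × R b} {α : R k × R b → R k × R b → R k × R b → ℝ}
    (hα : X.PositiveClass e α)
    (hL : ∀ z, kerC (cpart (mean (N.law.hat2 hα.2.1.clm) z)) = ⊥) : X.SymplecticClass e α := by
  obtain ⟨⟨hM, hO⟩, hB⟩ := hX
  obtain ⟨⟨B, rfl⟩, hα, χ, hχ, hp⟩ := hα
  refine classIsSymplectic_of_nice B hα ?_
  rw [Nice.classIsSymplectic_iff hM.isCover B hα.nice]
  refine X.nil.strong_class hM.isCover hO hB.isCover (fun h => ?_) B (Nice.part hχ.nice) _
    (Nice.form2_toC hα.nice) (Nice.closed_toC hα.nice) (fun z _ => hL z) hp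
  rcases lt_or_ge b 4 with hb | hb
  · exact Nice.strong_small hb hB.isCover h
  · exact (Nice.every_iff hB.isCover).1 (every_nice (hs hb h))

/-- Perturbation: for small `t ≠ 0` the form `α + t β` is positive and nondegenerate on the fibres. -/
theorem exists_perturb (hX : X.ClosedOriented) {n : ℕ} {e : Fin n × Fin 2 → R k × R b}
    {α β : R k × R b → R k × R b → R k × R b → ℝ} (hα : X.PositiveClass e α)
    (hβ : X.FibreNondegenerate β) : ∃ ε : ℝ, 0 < ε ∧ ∀ t : ℝ, 0 < |t| → |t| < ε →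
      ∃ h : X.PositiveClass e (fun x u v => α x u v + t * β x u v),
        ∀ z, kerC (cpart (mean (N.law.hat2 h.2.1.clm) z)) = ⊥ := by
  obtain ⟨⟨hM, hO⟩, hB⟩ := hX
  obtain ⟨⟨B, rfl⟩, hα, χ, hχ, hp⟩ := hα
  obtain ⟨hβ, z₀, hz₀⟩ := hβ
  have hHaar : Measure.IsAddHaarMeasure (volume : Measure (V k b)) :=
    Measure.prod.instIsAddHaarMeasure (volume : Measure (R k)) (volume : Measure (R b))
  have h1 := X.nil.eventually_kerC hM.isCover hB.isCover hα.form2 hα.isClosed hβ.form2 hβ.isClosed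
    z₀ (kerC_of_rank hβ hz₀)
  have h2 := eventually_integral_pos (⇑B) hχ.smooth hχ.compact hα.form2.smooth hβ.form2.smooth hp
  rw [eventually_nhdsWithin_iff] at h1
  obtain ⟨ε, hε, h3⟩ := Metric.eventually_nhds_iff.1 (h1.and h2)
  refine ⟨ε, hε, fun t ht0 ht => ?_⟩
  obtain ⟨h4, h5⟩ := h3 (y := t) (by simpa [Real.dist_eq] using ht)
  exact ⟨⟨⟨B, rfl⟩, hα.add_mul hβ t, χ, hχ, h5⟩, fun z => h4 (abs_pos.1 ht0) z⟩

/-- The class-wise theorem. -/
theorem main_class (hX : X.ClosedOriented) (hs : 4 ≤ b → X.BaseEveryClass) {n : ℕ}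
    {e : Fin n × Fin 2 → R k × R b} {α : R k × R b → R k × R b → R k × R b → ℝ}
    (hα : X.PositiveClass e α) :
    (∃ z, k ≤ (fibreMatrix N α z).rank + b) ∧
    (X.FibreNondegenerate α → X.SymplecticClass e α) ∧
    ∀ β, X.FibreNondegenerate β → ∃ ε : ℝ, 0 < ε ∧ ∀ t : ℝ, 0 < |t| → |t| < ε →
      X.SymplecticClass e (fun x u v => α x u v + t * β x u v) := by
  refine ⟨exists_rank X hX hα, fun h => symplectic_of X hX hs hα fun z => ?_, fun β hβ => ?_⟩
  · obtain ⟨hα', z₀, hz₀⟩ := h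
    exact X.nil.kerC_all hX.1.1.isCover hX.2.isCover hα'.form2 hα'.isClosed z₀
      (kerC_of_rank hα' hz₀) z
  · obtain ⟨ε, hε, h⟩ := exists_perturb X hX hα hβ
    refine ⟨ε, hε, fun t ht0 ht => ?_⟩
    obtain ⟨h1, h2⟩ := h t ht0 ht
    exact symplectic_of X hX hs h1 h2

/-- The inheritance theorem. -/
theorem main_inherit (hX : X.ClosedOriented) {n : ℕ}
    {e : Fin n × Fin 2 → R k × R b} {α : R k × R b → R k × R b → R k × R b → ℝ}
    (hα : X.PositiveClass e α) (h : (∃ β, X.FibreNondegenerate β) ∨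
      ∀ z, (fibreMatrix N α z).rank = k ∨ (fibreMatrix N α z).rank + b < k) :
    X.BaseCohomologicallySymplectic ∧ (X.BaseQ1 → X.Symplectic e) := by
  have h1 : ∃ β, X.FibreNondegenerate β := by
    rcases h with h | h
    · exact h
    · obtain ⟨z, hz⟩ := exists_rank X hX hα
      refine ⟨α, hα.2.1, z, ?_⟩
      rcases h z with h2 | h2 <;> omega
  obtain ⟨β, hβ⟩ := h1
  obtain ⟨ε, hε, h2⟩ := exists_perturb X hX hα hβ
  obtain ⟨h3, h4⟩ := h2 (ε / 2) (abs_pos.2 (by positivity)) (by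
    rw [abs_of_pos (by positivity)]
    linarith)
  obtain ⟨⟨hM, hO⟩, hB⟩ := hX
  obtain ⟨⟨B, rfl⟩, h3, χ, hχ, hp⟩ := h3
  constructor
  · obtain ⟨hOb, m, Bb, hcs⟩ := X.nil.base_class hM.isCover hO hB.isCover B (Nice.part hχ.nice) _
      h3.form2 h3.isClosed (fun z _ => h4 z) hp
    obtain ⟨χB, σ, hχB, hσ, hσp⟩ := (Nice.csymp_iff Bb).2 hcs
    exact ⟨hOb, m, Bb, _, ⟨Bb, rfl⟩, ClosedTwoForm.of_nice hσ, χB,
      PartitionOfUnity.of_nice hχB, hσp⟩
  · intro hw
    exact (hasSymplecticForm_iff B).2 ((Nice.symp_iff B).2 (X.nil.weak_class hM.isCover hO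
      hB.isCover (fun h => Nice.weak_iff.1 (csis_nice (hw h))) B (Nice.part hχ.nice) _
      h3.form2 h3.isClosed (fun z _ => h4 z) hp))

end

end Pool.Agent.W_9986fc_h24.NB
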