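import Pool.Agent.W_9986fc_h24.NB.Conv
import Pool.Agent.W_9986fc_h24.Prod.AffB

/-!
# Bundles of nilmanifolds: perturbation by a closed form which is nondegenerate on the fibres
-/

set_option autoImplicit false
set_option maxSynthPendingDepth 3

open scoped ContDiff Topology
open Pool.Agent.W_9986fc_h15 MeasureTheory Filter

namespace Pool.Agent.W_9986fc_h24

/-- The top power of `a + t • c` is a polynomial in `t`. -/
theorem exists_poly {E : Type*} [NormedAddCommGroup E] [NormedSpace ℝ E] {n : ℕ}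
    (e : Fin n × Fin 2 → E) (a c : E →L[ℝ] E →L[ℝ] ℝ) :
    ∃ P : Polynomial ℝ, ∀ t : ℝ, P.eval t = top e (a + t • c) := by
  refine ⟨∑ σ : Equiv.Perm (Fin n × Fin 2), Polynomial.C (((Equiv.Perm.sign σ : ℤ) : ℝ)) *
    ∏ i, (Polynomial.C (a (e (σ (i, 0))) (e (σ (i, 1)))) +
      Polynomial.X * Polynomial.C (c (e (σ (i, 0))) (e (σ (i, 1))))), fun t => ?_⟩
  rw [Polynomial.eval_finsetSum]
  unfold top
  refine Finset.sum_congr rfl fun σ _ => ?_
  rw [Polynomial.eval_mul, Polynomial.eval_prod, Polynomial.eval_C]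
  congr 1
  refine Finset.prod_congr rfl fun i _ => ?_
  rw [Polynomial.eval_add, Polynomial.eval_mul, Polynomial.eval_C, Polynomial.eval_C,
    Polynomial.eval_X]
  rfl

/-- If the top power of `c` is not zero, then the top power of `a + t • c` is not zero for all small
`t ≠ 0`. -/
theorem eventually_top_ne {E : Type*} [NormedAddCommGroup E] [NormedSpace ℝ E] {n : ℕ}
    (e : Fin n × Fin 2 → E) (a c : E →L[ℝ] E →L[ℝ] ℝ) (hc : top e c ≠ 0) :
    ∀ᶠ t : ℝ in 𝓝[≠] 0, top e (a + t • c) ≠ 0 := by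
  obtain ⟨P, hP⟩ := exists_poly e a c
  have hP0 : P ≠ 0 := by
    intro h0
    obtain ⟨Q, hQ⟩ := exists_poly e c a
    have h1 : ∀ᶠ s : ℝ in 𝓝[≠] 0, Q.eval s ≠ 0 := by
      have h2 : ContinuousAt (fun s => Q.eval s) 0 := Q.continuous.continuousAt
      have h3 : Q.eval 0 ≠ 0 := by
        rw [hQ]
        simpa using hc
      exact (h2.eventually_ne h3).filter_mono nhdsWithin_le_nhds
    obtain ⟨s, hs, hs0⟩ := (h1.and self_mem_nhdsWithin).exists
    have hs0' : s ≠ 0 := hs0
    have h4 : a + s⁻¹ • c = s⁻¹ • (c + s • a) := by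
      rw [smul_add, smul_smul, inv_mul_cancel₀ hs0', one_smul, add_comm]
    have h5 := hP s⁻¹
    rw [h0, Polynomial.eval_zero, h4, top_smul, ← hQ] at h5
    have h6 : s⁻¹ ^ n ≠ 0 := pow_ne_zero _ (inv_ne_zero hs0')
    rcases mul_eq_zero.1 h5.symm with h7 | h7
    · exact h6 h7
    · exact hs h7
  have h1 : ∀ᶠ t : ℝ in 𝓝[≠] 0, t ∉ P.roots.toFinset := by
    have h2 : (P.roots.toFinset : Set ℝ).Finite := Finset.finite_toSet _
    have h3 : ∀ᶠ t : ℝ in 𝓝[≠] 0, t ∉ (P.roots.toFinset : Set ℝ) \ {0} := by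
      have h4 : IsClosed ((P.roots.toFinset : Set ℝ) \ {0}) := (h2.subset Set.sdiff_subset).isClosed
      have h5 : (0 : ℝ) ∉ (P.roots.toFinset : Set ℝ) \ {0} := fun h => h.2 rfl
      exact nhdsWithin_le_nhds (h4.isOpen_compl.mem_nhds h5)
    filter_upwards [h3, self_mem_nhdsWithin] with t ht ht0 ht1
    exact ht ⟨by simpa using ht1, ht0⟩
  filter_upwards [h1] with t ht h
  apply ht
  rw [Multiset.mem_toFinset, Polynomial.mem_roots hP0, Polynomial.IsRoot.def, hP]
  exact h

section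

variable {E : Type} [NormedAddCommGroup E] [NormedSpace ℝ E] [FiniteDimensional ℝ E]
  [MeasureSpace E] [BorelSpace E] [Measure.IsAddHaarMeasure (volume : Measure E)] {n : ℕ}

/-- The integral of the top power of `α + t • β` is positive for small `t`. -/
theorem eventually_integral_pos (e : Fin n × Fin 2 → E) {χ : E → ℝ} (hχ : ContDiff ℝ ∞ χ)
    (hχc : HasCompactSupport χ) {α β : E → E →L[ℝ] E →L[ℝ] ℝ} (hα : ContDiff ℝ ∞ α)
    (hβ : ContDiff ℝ ∞ β) (hpos : 0 < ∫ x, χ x * top e (α x)) :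
    ∀ᶠ t : ℝ in 𝓝 0, 0 < ∫ x, χ x * top e (α x + t • β x) := by
  have h1 : ∀ t : ℝ, ∫ x, χ x * top e (α x + t • β x) =
      ∫ x in tsupport χ, χ x * top e (α x + t • β x) := by
    intro t
    symm
    refine setIntegral_eq_integral_of_forall_compl_eq_zero fun x hx => ?_
    rw [image_eq_zero_of_notMem_tsupport hx, zero_mul]
  have h2 : Continuous fun t : ℝ => ∫ x in tsupport χ, χ x * top e (α x + t • β x) := by
    refine continuous_parametric_integral_of_continuous ?_ hχc
    have h3 : Continuous fun p : ℝ × E => α p.2 + p.1 • β p.2 :=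
      (hα.continuous.comp continuous_snd).add
        (continuous_fst.smul (hβ.continuous.comp continuous_snd))
    exact (hχ.continuous.comp continuous_snd).mul (continuous_top e h3)
  have h4 : ContinuousAt (fun t : ℝ => ∫ x, χ x * top e (α x + t • β x)) 0 := by
    simp only [h1]
    exact h2.continuousAt
  refine h4.eventually (lt_mem_nhds ?_)
  simpa using hpos

end

namespace NilBundle

variable {k b : ℕ} {N : NilLaw k} {Γ G : Type} [Group Γ] [Group G]
    [MulAction Γ (V k b)] [MulAction G (R b)] (X : NilBundle N b Γ G)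

/-- The fibre part of the mean is linear in the form. -/
theorem cpart_mean_add {α β : V k b → V k b →L[ℝ] V k b →L[ℝ] ℝ} (hα : ContDiff ℝ ∞ α)
    (hβ : ContDiff ℝ ∞ β) (t : ℝ) (z : R b) :
    cpart (mean (N.hat2 fun p => α p + t • β p) z) =
      cpart (mean (N.hat2 α) z) + t • cpart (mean (N.hat2 β) z) := by
  have h1 : N.hat2 (fun p => α p + t • β p) = fun p => N.hat2 α p + t • N.hat2 β p := by
    funext p
    refine ContinuousLinearMap.ext fun u => ContinuousLinearMap.ext fun v => ?_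
    rfl
  have hc : Continuous (N.hat2 α) := (N.contDiff_hat2 hα).continuous
  have hc' : Continuous (N.hat2 β) := (N.contDiff_hat2 hβ).continuous
  have h2 : mean (fun p => N.hat2 α p + t • N.hat2 β p) z =
      mean (N.hat2 α) z + t • mean (N.hat2 β) z := by
    have h3 : mean (fun p => N.hat2 α p + t • N.hat2 β p) z =
        mean (N.hat2 α) z + ∫ v in Set.Icc (0 : R k) 1, t • N.hat2 β (v, z) :=
      integral_add (Cube_intble _ hc z) ((Cube_intble _ hc' z).smul t)
    rw [h3, MeasureTheory.integral_smul]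
    rfl
  rw [h1, h2]
  rfl

include X in
/-- If the fibre part of the mean is nondegenerate at one point, then it is so at all points. -/
theorem kerC_all (hE : IsCover (V k b) Γ) (hG : IsCover (R b) G)
    {α : V k b → V k b →L[ℝ] V k b →L[ℝ] ℝ} (hα : Form2 Γ α) (hc : Closed α) (z₀ : R b)
    (h0 : kerC (cpart (mean (N.hat2 α) z₀)) = ⊥) (z : R b) :
    kerC (cpart (mean (N.hat2 α) z)) = ⊥ := by
  have hm := X.mform_mean hE hG hα hc
  have halt : ∀ z u, cpart (mean (N.hat2 α) z) u u = 0 := fun z u => hm.alt z _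
  obtain ⟨mk', hmk'⟩ := even_of_nondegenerate (cpart (mean (N.hat2 α) z₀)) (halt z₀) (by
    intro w hw
    have h1 : w ∈ kerC (cpart (mean (N.hat2 α) z₀)) := by
      rw [kerC, LinearMap.mem_ker]
      exact ContinuousLinearMap.ext hw
    rw [h0] at h1
    exact (Submodule.mem_bot ℝ).1 h1)
  obtain ⟨mk, ⟨Bk⟩⟩ := exists_basis_even (E := R k) (by
    rw [hmk']
    exact even_two_mul _)
  obtain ⟨μ, hμ⟩ := hm.exists_class z₀ z
  have h1 : cpart (mean (N.hat2 α) z) = cpart (mean (N.hat2 α) z₀) + exactC N μ := by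
    refine ContinuousLinearMap.ext fun u => ContinuousLinearMap.ext fun v => ?_
    rw [_root_.add_apply, _root_.add_apply, exactC_apply]
    exact hμ u v
  rw [kerC_eq_bot_iff Bk (halt z), h1, top_add_exactC N Bk (hm.closedC z₀) μ]
  exact (kerC_eq_bot_iff Bk (halt z₀)).1 h0

include X in
/-- If the fibre part of the mean of `β` is nondegenerate at one point, then the fibre part of the
mean of `α + t • β` is nondegenerate at all points, for all small `t ≠ 0`. -/
theorem eventually_kerC (hE : IsCover (V k b) Γ) (hG : IsCover (R b) G)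
    {α β : V k b → V k b →L[ℝ] V k b →L[ℝ] ℝ} (hα : Form2 Γ α) (hc : Closed α)
    (hβ : Form2 Γ β) (hcβ : Closed β) (z₀ : R b)
    (h0 : kerC (cpart (mean (N.hat2 β) z₀)) = ⊥) :
    ∀ᶠ t : ℝ in 𝓝[≠] 0, ∀ z,
      kerC (cpart (mean (N.hat2 fun p => α p + t • β p) z)) = ⊥ := by
  have hm := X.mform_mean hE hG hβ hcβ
  have halt : ∀ z u, cpart (mean (N.hat2 β) z) u u = 0 := fun z u => hm.alt z _
  obtain ⟨mk', hmk'⟩ := even_of_nondegenerate (cpart (mean (N.hat2 β) z₀)) (halt z₀) (by
    intro w hw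
    have h1 : w ∈ kerC (cpart (mean (N.hat2 β) z₀)) := by
      rw [kerC, LinearMap.mem_ker]
      exact ContinuousLinearMap.ext hw
    rw [h0] at h1
    exact (Submodule.mem_bot ℝ).1 h1)
  obtain ⟨mk, ⟨Bk⟩⟩ := exists_basis_even (E := R k) (by
    rw [hmk']
    exact even_two_mul _)
  have h1 := eventually_top_ne Bk (cpart (mean (N.hat2 α) z₀)) (cpart (mean (N.hat2 β) z₀))
    ((kerC_eq_bot_iff Bk (halt z₀)).1 h0)
  filter_upwards [h1] with t ht
  have hF : Form2 Γ fun p => α p + t • β p := hα.add (hβ.smul t)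
  have hFc : Closed fun p => α p + t • β p :=
    closed_add hα.toIsForm (hβ.smul t).toIsForm hc (closed_smul hβ.toIsForm hcβ t)
  refine X.kerC_all hE hG hF hFc z₀ ?_
  have hm' := X.mform_mean hE hG hF hFc
  rw [kerC_eq_bot_iff Bk fun u => hm'.alt z₀ _, cpart_mean_add hα.smooth hβ.smooth]
  exact ht

include X in
/-- At some point of the base the top power of the mean is not zero; hence the kernel of the fibre
part has dimension at most `b`. -/
theorem exists_finrank_le (hE : IsCover (V k b) Γ) (hO : Orient (V k b) Γ) (hG : IsCover (R b) G)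
    {n : ℕ} (B : Module.Basis (Fin n × Fin 2) ℝ (V k b)) {χ : V k b → ℝ}
    (hχ : Part Γ χ) (α : V k b → V k b →L[ℝ] V k b →L[ℝ] ℝ) (hα : Form2 Γ α) (hc : Closed α)
    (hpos : 0 < ∫ p, χ p * top B (α p)) :
    ∃ z, Module.finrank ℝ (kerC (cpart (mean (N.hat2 α) z))) ≤ b := by
  obtain ⟨χB, hχB, _⟩ := exists_part hG
  obtain ⟨α₀, η, a1, a2, a3, a4, a5⟩ := exists_mean_inv X hE hG hα hc
  set m : R b → V k b →L[ℝ] V k b →L[ℝ] ℝ := mean (N.hat2 α) with hmdef
  have hm : MForm N m := X.mform_mean hE hG hα hc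
  have htop : ∀ p, top B (α₀ p) = top B (m p.2) := by
    intro p
    rw [top_hat2 N B α₀ p, a4 p]
  have hHaar : Measure.IsAddHaarMeasure (volume : Measure (V k b)) :=
    Measure.prod.instIsAddHaarMeasure (volume : Measure (R k)) (volume : Measure (R b))
  have hint : 0 < ∫ z, χB z * top B (m z) := by
    have e1 : ∫ p, χ p * top B (α p) = ∫ p, χ p * top B (α₀ p) := by
      rw [← integral_top_add hE hO hχ B α₀ a1 a2 η a3]
      simp only [← a5]
    have e2 : ∫ p, χ p * top B (α₀ p) = ∫ z, χB z * top B (m z) := by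
      simp only [htop]
      refine integral_base X hE hO hG hχ hχB (fun z => top B (m z))
        (continuous_top _ hm.smooth.continuous) fun γ p => ?_
      have h1 := top_inv B α₀ a1 γ p
      rw [htop, htop] at h1
      exact h1
    rw [← e2, ← e1]
    exact hpos
  obtain ⟨z₀, hz₀⟩ : ∃ z₀, top B (m z₀) ≠ 0 := by
    by_contra hne
    push Not at hne
    simp only [hne, mul_zero, integral_zero, lt_irrefl] at hint
  refine ⟨z₀, ?_⟩
  by_contra hlt
  exact hz₀ (hm.top_eq_zero_of_large B z₀ (not_le.1 hlt))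

include X in
/-- The base is oriented and cohomologically symplectic. -/
theorem base_class (hE : IsCover (V k b) Γ) (hO : Orient (V k b) Γ) (hG : IsCover (R b) G)
    {n : ℕ} (B : Module.Basis (Fin n × Fin 2) ℝ (V k b)) {χ : V k b → ℝ}
    (hχ : Part Γ χ) (α : V k b → V k b →L[ℝ] V k b →L[ℝ] ℝ) (hα : Form2 Γ α) (hc : Closed α)
    (hL : ∀ z, Module.finrank ℝ (kerC (cpart (mean (N.hat2 α) z))) ≤ b →
      kerC (cpart (mean (N.hat2 α) z)) = ⊥)
    (hpos : 0 < ∫ p, χ p * top B (α p)) :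
    Orient (R b) G ∧ ∃ (m : ℕ) (Bb : Module.Basis (Fin m × Fin 2) ℝ (R b)), CSymp G Bb := by
  obtain ⟨χB, hχB, _⟩ := exists_part hG
  obtain ⟨hOb, mb, Bb, h, α₀, η, hh, hhc, hint, hα0, hα0c, hη, hdec, htop⟩ :=
    X.nil_core hE hO hG B hχ α hα hc hL hpos hχB
  exact ⟨hOb, mb, Bb, χB, h, hχB, hh, hhc, hint⟩

end NilBundle

end Pool.Agent.W_9986fc_h24
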