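import Mathlib

/-!
# Bundles of nilmanifolds and symplectic forms: definitions

Closed manifolds (or orbifolds) are given as quotients `E / Γ` of a real vector space `E` by a group
`Γ` which acts on `E`; the differential forms on `E / Γ` are the `Γ`-invariant differential forms on
`E`. The bundles of nilmanifolds are quotients of `ℝ^k × ℝ^b`.
-/

set_option autoImplicit false

open scoped ContDiff
open MeasureTheory

namespace Pool.Agent.W_9986fc_h24.NB

section

variable (E : Type) [NormedAddCommGroup E] [NormedSpace ℝ E] (Γ : Type) [Group Γ] [MulAction Γ E]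

/-- `E / Γ` is a closed orbifold (a closed manifold if `Γ` acts freely): the action is smooth,
properly discontinuous and cocompact. -/
structure Closed : Prop where
  smooth : ∀ g : Γ, ContDiff ℝ ∞ (fun x : E => g • x)
  proper : ∀ K : Set E, IsCompact K → {g : Γ | ∃ x ∈ K, g • x ∈ K}.Finite
  cocompact : ∃ K : Set E, IsCompact K ∧ ∀ x, ∃ g : Γ, g • x ∈ K

/-- The action preserves the orientation of `E`: `E / Γ` is oriented. -/
def Oriented : Prop := ∀ (g : Γ) (x : E), 0 < (fderiv ℝ (fun y : E => g • y) x).det

variable {E}

/-- `η` is a differential 1-form on `E / Γ`. -/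
structure OneForm (η : E → E → ℝ) : Prop where
  linear : ∀ x, IsLinearMap ℝ (η x)
  smooth : ∀ u, ContDiff ℝ ∞ (fun x => η x u)
  invariant : ∀ (g : Γ) (x u : E), η (g • x) (fderiv ℝ (fun y : E => g • y) x u) = η x u

/-- `α` is a closed differential 2-form on `E / Γ`. -/
structure ClosedTwoForm (α : E → E → E → ℝ) : Prop where
  linear : ∀ x u, IsLinearMap ℝ (α x u)
  antisymm : ∀ x u v, α x u v = - α x v u
  smooth : ∀ u v, ContDiff ℝ ∞ (fun x => α x u v)
  invariant : ∀ (g : Γ) (x u v : E), α (g • x) (fderiv ℝ (fun y : E => g • y) x u)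
    (fderiv ℝ (fun y : E => g • y) x v) = α x u v
  closed : ∀ x u v w, fderiv ℝ (fun y => α y v w) x u + fderiv ℝ (fun y => α y w u) x v +
    fderiv ℝ (fun y => α y u v) x w = 0

/-- `χ` is a smooth function on `E` with compact support whose translates under `Γ` sum up to one:
the integral over `E / Γ` of an invariant density `F` is `∫ x, χ x * F x`. -/
structure PartitionOfUnity (χ : E → ℝ) : Prop where
  smooth : ContDiff ℝ ∞ χ
  compact : HasCompactSupport χ
  sum : ∀ x, ∑ᶠ g : Γ, χ (g • x) = 1

/-- The vectors `e (0, 0), e (0, 1), e (1, 0), e (1, 1), ...` are a basis of `E`. They define an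
orientation of `E`. -/
def IsBasis {n : ℕ} (e : Fin n × Fin 2 → E) : Prop :=
  ∃ B : Module.Basis (Fin n × Fin 2) ℝ E, ⇑B = e

omit [NormedAddCommGroup E] [NormedSpace ℝ E] in
/-- `2 ^ n` times the value of the `n`-th exterior power of the 2-form `q` at the `2 n` vectors
`e (0, 0), e (0, 1), e (1, 0), e (1, 1), ...`. -/
noncomputable def topPower {n : ℕ} (e : Fin n × Fin 2 → E) (q : E → E → ℝ) : ℝ :=
  ∑ σ : Equiv.Perm (Fin n × Fin 2),
    ((Equiv.Perm.sign σ : ℤ) : ℝ) * ∏ i, q (e (σ (i, 0))) (e (σ (i, 1)))

/-- The class of the 2-form `α` on `E / Γ` contains a symplectic form `β = α + d η` which is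
compatible with the orientation `e`. -/
def ClassIsSymplectic {n : ℕ} (e : Fin n × Fin 2 → E) (α : E → E → E → ℝ) : Prop :=
  ∃ (β : E → E → E → ℝ) (η : E → E → ℝ), ClosedTwoForm Γ β ∧ OneForm Γ η ∧
    (∀ x u v, β x u v =
      α x u v + (fderiv ℝ (fun y => η y v) x u - fderiv ℝ (fun y => η y u) x v)) ∧
    ∀ x, 0 < topPower e (β x)

/-- `E / Γ` has a symplectic form which is compatible with the orientation `e`. -/
def HasSymplecticForm {n : ℕ} (e : Fin n × Fin 2 → E) : Prop :=
  ∃ β : E → E → E → ℝ, ClosedTwoForm Γ β ∧ ∀ x, 0 < topPower e (β x)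

variable [MeasureSpace E]

/-- The integral over `E / Γ` of the top power of `α` is positive, for the orientation `e`. -/
def PositiveIntegral {n : ℕ} (e : Fin n × Fin 2 → E) (α : E → E → E → ℝ) : Prop :=
  ∃ χ : E → ℝ, PartitionOfUnity Γ χ ∧ 0 < ∫ x, χ x * topPower e (α x)

variable (E)

/-- For both orientations of `E / Γ`: every class `a` with `a ^ n > 0` contains a symplectic form. -/
def EveryPositiveClassIsSymplectic : Prop :=
  ∀ (n : ℕ) (e : Fin n × Fin 2 → E) (α : E → E → E → ℝ), IsBasis e → ClosedTwoForm Γ α →
    PositiveIntegral Γ e α → ClassIsSymplectic Γ e α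

/-- The implication of Q1 (without the hypothesis on almost complex structures) for `E / Γ`, with both
orientations: if there is a class `a` with `a ^ n > 0`, then there is a symplectic form. -/
def PositiveClassImpliesSymplectic : Prop :=
  ∀ (n : ℕ) (e : Fin n × Fin 2 → E) (α : E → E → E → ℝ), IsBasis e → ClosedTwoForm Γ α →
    PositiveIntegral Γ e α → HasSymplecticForm Γ e

end

/-- `ℝ^n`. -/
abbrev R (n : ℕ) := Fin n → ℝ

/-- The points of `ℝ^k` with integral coordinates. -/
def integral {k : ℕ} (m : Fin k → ℤ) : R k := fun i => (m i : ℝ)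

/-- A simply connected nilpotent Lie group with a lattice, in Malcev coordinates: a smooth group law
on `ℝ^k` with unit `0`, such that the `j`-th coordinate of `x * y` is `x j + y j` plus a function of
the coordinates `x i, y i` with `i < j`, and such that `ℤ^k` is closed under the multiplication (the
inverses exist and `ℤ^k` is a subgroup, by triangularity). -/
structure NilpotentGroup (k : ℕ) where
  mul : R k → R k → R k
  smooth : ContDiff ℝ ∞ (fun p : R k × R k => mul p.1 p.2)
  assoc : ∀ x y w, mul (mul x y) w = mul x (mul y w)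
  zero_mul : ∀ x, mul 0 x = x
  mul_zero : ∀ x, mul x 0 = x
  triangular : ∀ (j : Fin k) (x x' y y' : R k), (∀ i, i < j → x i = x' i) →
    (∀ i, i < j → y i = y' i) → mul x y j - x j - y j = mul x' y' j - x' j - y' j
  lattice : ∀ m m' : Fin k → ℤ, ∃ l : Fin k → ℤ, mul (integral m) (integral m') = integral l

/-- The left invariant vector field on the nilpotent group which is the `i`-th unit vector at the
unit element. -/
noncomputable def NilpotentGroup.field {k : ℕ} (N : NilpotentGroup k) (i : Fin k) (v : R k) : R k :=
  fderiv ℝ (N.mul v) 0 (Pi.single i 1)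

/-- A bundle of nilmanifolds `M = (ℝ^k × ℝ^b) / Γ → B = ℝ^b / G`: the group `Γ` is an extension of
`G` by the lattice `ℤ^k` of the nilpotent group `(ℝ^k, N.mul)`, which acts by left translations on the
fibres, and the elements of `Γ` act by fibrewise affine maps
`(x, z) ↦ (A γ x * m γ z, π γ • z)`, where `A γ` is an automorphism preserving the lattice. -/
structure Bundle {k : ℕ} (N : NilpotentGroup k) (b : ℕ) (Γ G : Type) [Group Γ] [Group G]
    [MulAction Γ (R k × R b)] [MulAction G (R b)] where
  π : Γ →* G
  surjective : Function.Surjective π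
  inclusion : (Fin k → ℤ) → Γ
  kernel : ∀ γ, π γ = 1 ↔ ∃ l, γ = inclusion l
  translation : ∀ (l : Fin k → ℤ) (x : R k) (z : R b),
    inclusion l • (x, z) = (N.mul (integral l) x, z)
  A : Γ → R k → R k
  m : Γ → R b → R k
  smoothA : ∀ γ, ContDiff ℝ ∞ (A γ)
  smoothm : ∀ γ, ContDiff ℝ ∞ (m γ)
  automorphism : ∀ γ x y, A γ (N.mul x y) = N.mul (A γ x) (A γ y)
  lattice : ∀ γ (l : Fin k → ℤ), ∃ l' : Fin k → ℤ, A γ (integral l) = integral l'
  lattice' : ∀ γ (l : Fin k → ℤ), ∃ l' : Fin k → ℤ, A γ (integral l') = integral l
  action : ∀ (γ : Γ) (x : R k) (z : R b), γ • (x, z) = (N.mul (A γ x) (m γ z), π γ • z)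

/-- The mean of the 2-form `α` over the fibre at the point `z` of the base: the matrix of the left
invariant 2-form on the nilpotent group which is cohomologous to the restriction of `α` to the fibre.
Its entries are the integrals over the fundamental domain `[0,1]^k` of the lattice of the values of
`α` at the left invariant vector fields. -/
noncomputable def fibreMatrix {k b : ℕ} (N : NilpotentGroup k)
    (α : R k × R b → R k × R b → R k × R b → ℝ) (z : R b) : Matrix (Fin k) (Fin k) ℝ :=
  fun i j => ∫ v in Set.Icc (0 : R k) 1, α (v, z) (N.field i v, 0) (N.field j v, 0)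

namespace Bundle

variable {k b : ℕ} {N : NilpotentGroup k} {Γ G : Type} [Group Γ] [Group G]
    [MulAction Γ (R k × R b)] [MulAction G (R b)]

/-- The total space `M` and the base `B` are closed manifolds (or orbifolds) and `M` is oriented. -/
def ClosedOriented (_X : Bundle N b Γ G) : Prop :=
  (Closed (R k × R b) Γ ∧ Oriented (R k × R b) Γ) ∧ Closed (R b) G

/-- `α` is a closed 2-form on `M`, and for the orientation given by the basis `e` the integral over
`M` of the top power of `α` is positive. -/
def PositiveClass (_X : Bundle N b Γ G) {n : ℕ} (e : Fin n × Fin 2 → R k × R b)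
    (α : R k × R b → R k × R b → R k × R b → ℝ) : Prop :=
  IsBasis e ∧ ClosedTwoForm Γ α ∧ PositiveIntegral Γ e α

/-- `β` is a closed 2-form on `M` whose mean over the fibres is nondegenerate at some point of `B`. -/
def FibreNondegenerate (_X : Bundle N b Γ G) (β : R k × R b → R k × R b → R k × R b → ℝ) : Prop :=
  ClosedTwoForm Γ β ∧ ∃ z, (fibreMatrix N β z).rank = k

/-- The class of `α` in `H^2(M; ℝ)` contains a symplectic form compatible with the orientation `e`. -/
def SymplecticClass (_X : Bundle N b Γ G) {n : ℕ} (e : Fin n × Fin 2 → R k × R b)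
    (α : R k × R b → R k × R b → R k × R b → ℝ) : Prop := ClassIsSymplectic Γ e α

/-- `M` has a symplectic form compatible with the orientation `e`. -/
def Symplectic (_X : Bundle N b Γ G) {n : ℕ} (e : Fin n × Fin 2 → R k × R b) : Prop :=
  HasSymplecticForm Γ e

/-- If the base `B` is oriented, then every class `a` with `a ^ m > 0` on `B` contains a symplectic
form (`2 m = b`, both orientations). -/
def BaseEveryClass (_X : Bundle N b Γ G) : Prop :=
  Oriented (R b) G → EveryPositiveClassIsSymplectic (R b) G

/-- The base `B` is oriented, and for some orientation of `B` there is a class `a` on `B` with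
`a ^ m > 0` (`2 m = b`). -/
def BaseCohomologicallySymplectic (_X : Bundle N b Γ G) : Prop :=
  Oriented (R b) G ∧ ∃ (m : ℕ) (e : Fin m × Fin 2 → R b) (σ : R b → R b → R b → ℝ),
    IsBasis e ∧ ClosedTwoForm G σ ∧ PositiveIntegral G e σ

/-- If the base `B` is oriented, then `B` satisfies the implication of Q1 (without the hypothesis on
almost complex structures, both orientations). -/
def BaseQ1 (_X : Bundle N b Γ G) : Prop := Oriented (R b) G → PositiveClassImpliesSymplectic (R b) G

end Bundle

end Pool.Agent.W_9986fc_h24.NB
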